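import Pool.Agent.X232.GR.Main

set_option autoImplicit false

/-!
Generalized robustness of toric ideals is inherited by elimination ideals.
-/

namespace Pool.Agent.Results.MP_1df74f_al.Elimination

open MvPolynomial X232.GR

noncomputable section

/-- The toric ideal of the vectors `a i`: the kernel of `x_i ↦ t^(a i)` into the Laurent
polynomial ring `k[t_1^±1, ..., t_d^±1]`, which is the group algebra of `ℤ^d`. -/
def toricIdeal (k : Type*) [Field k] {σ : Type} {d : ℕ} (a : σ → (Fin d → ℤ)) :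
    Ideal (MvPolynomial σ k) :=
  RingHom.ker (MvPolynomial.aeval (fun i => AddMonoidAlgebra.single (a i) (1 : k)) :
    MvPolynomial σ k →ₐ[k] AddMonoidAlgebra k (Fin d → ℤ))

/-- generalized robust: the universal Groebner basis equals the universal Markov basis -/
def GeneralizedRobust (k : Type*) [Field k] {σ : Type} {d : ℕ} (a : σ → (Fin d → ℤ)) : Prop :=
  universalGB (toricIdeal k a) = universalMarkov (toricIdeal k a)

/-- the additive map `u ↦ ∑ u_i a_i` -/
def Ahom {σ : Type} {d : ℕ} (a : σ → (Fin d → ℤ)) : (σ →₀ ℕ) →+ (Fin d → ℤ) :=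
  Finsupp.liftAddHom fun i => multiplesHom (Fin d → ℤ) (a i)

theorem Ahom_single {σ : Type} {d : ℕ} (a : σ → (Fin d → ℤ)) (i : σ) :
    Ahom a (Finsupp.single i 1) = a i := by
  unfold Ahom
  rw [Finsupp.liftAddHom_apply_single, multiplesHom_apply, one_smul]

theorem toricIdeal_eq (k : Type*) [Field k] {σ : Type} {d : ℕ} (a : σ → (Fin d → ℤ)) :
    toricIdeal k a = IA k (Ahom a) := by
  unfold toricIdeal IA phi
  simp only [Ahom_single]

theorem Ahom_sub {σ : Type} {d : ℕ} (a : σ → (Fin d → ℤ)) (S : Set σ) :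
    Ahom (fun i : S => a i) = (Ahom a).comp (emb S) := by
  refine Finsupp.addHom_ext' fun i => AddMonoidHom.ext_nat ?_
  show Ahom (fun i : S => a i) (Finsupp.single i 1) = Ahom a (emb S (Finsupp.single i 1))
  rw [Ahom_single, emb_single, Ahom_single]

theorem exists_weight {σ : Type} {d : ℕ} (a : σ → (Fin d → ℤ)) (w : Fin d → ℚ)
    (hw : ∀ i, 0 < ∑ j, w j * (a i j : ℚ)) : ∃ W : (σ →₀ ℕ) →+ ℕ, IsWeight (Ahom a) W := by
  classical
  set D : ℕ := ∏ j, (w j).den with hD
  have hDpos : 0 < D := Finset.prod_pos fun j _ => (w j).den_pos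
  have hz : ∀ j, ∃ z : ℤ, (z : ℚ) = D * w j := by
    intro j
    obtain ⟨c, hc⟩ := Finset.dvd_prod_of_mem (fun j => (w j).den) (Finset.mem_univ j)
    refine ⟨c * (w j).num, ?_⟩
    have h1 : ((w j).den : ℚ) * w j = (w j).num := by
      rw [mul_comm]; exact Rat.mul_den_eq_num (w j)
    have h2 : (D : ℚ) = (w j).den * c := by
      rw [hD, hc]; push_cast; ring
    rw [h2]
    push_cast
    rw [← h1]; ring
  choose z hz using hz
  set n : σ → ℕ := fun i => (∑ j, z j * a i j).toNat with hn
  have hpos : ∀ i, 0 < ∑ j, z j * a i j := by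
    intro i
    have h1 : ((∑ j, z j * a i j : ℤ) : ℚ) = D * ∑ j, w j * (a i j : ℚ) := by
      push_cast
      rw [Finset.mul_sum]
      refine Finset.sum_congr rfl fun j _ => ?_
      rw [hz]; ring
    have h2 : (0 : ℚ) < ((∑ j, z j * a i j : ℤ) : ℚ) := by
      rw [h1]
      exact mul_pos (by exact_mod_cast hDpos) (hw i)
    exact_mod_cast h2
  let W : (σ →₀ ℕ) →+ ℕ := Finsupp.liftAddHom fun i => multiplesHom ℕ (n i)
  have hW1 : ∀ i, W (Finsupp.single i 1) = n i := by
    intro i
    show (Finsupp.liftAddHom fun i => multiplesHom ℕ (n i)) (Finsupp.single i 1) = n i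
    rw [Finsupp.liftAddHom_apply_single, multiplesHom_apply, one_smul]
  let L : (Fin d → ℤ) →+ ℤ :=
    { toFun := fun x => ∑ j, z j * x j
      map_zero' := by simp
      map_add' := fun x y => by
        rw [← Finset.sum_add_distrib]
        refine Finset.sum_congr rfl fun j _ => ?_
        rw [Pi.add_apply]; ring }
  have hcomp : (Nat.castAddMonoidHom ℤ).comp W = L.comp (Ahom a) := by
    refine Finsupp.addHom_ext' fun i => AddMonoidHom.ext_nat ?_
    show ((W (Finsupp.single i 1) : ℕ) : ℤ) = L (Ahom a (Finsupp.single i 1))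
    rw [hW1, Ahom_single]
    show (((∑ j, z j * a i j).toNat : ℕ) : ℤ) = ∑ j, z j * a i j
    exact Int.toNat_of_nonneg (hpos i).le
  have hcomp' : ∀ u, ((W u : ℕ) : ℤ) = L (Ahom a u) := fun u => DFunLike.congr_fun hcomp u
  refine ⟨W, ⟨fun i => ?_, fun u v huv => ?_⟩⟩
  · rw [hW1]
    show 0 < (∑ j, z j * a i j).toNat
    have := hpos i
    omega
  · have h1 := hcomp' u
    rw [huv, ← hcomp' v] at h1
    exact_mod_cast h1

/-- **Generalized robustness is inherited under elimination of variables.** -/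
theorem result (k : Type*) [Field k] {σ : Type} [Finite σ] {d : ℕ} (a : σ → (Fin d → ℤ))
    (w : Fin d → ℚ) (hw : ∀ i, 0 < ∑ j, w j * (a i j : ℚ)) (h : GeneralizedRobust k a)
    (S : Set σ) : GeneralizedRobust k (fun i : S => a i) := by
  obtain ⟨W, hW⟩ := exists_weight a w hw
  unfold GeneralizedRobust at h ⊢
  rw [toricIdeal_eq] at h ⊢
  rw [Ahom_sub]
  exact generalized_robust_elim hW h S

end

end Pool.Agent.Results.MP_1df74f_al.Elimination
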